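import Pool.Agent.W792.WA.Stm
import Pool.Agent.W918.LL.Opr
import Pool.Agent.W792.LL.Dia
import Pool.Agent.W762.LL.Zf
import Pool.Agent.W978.LL.Mz
import Pool.Agent.W335.LLCay

/-!
# WA-MZP: measurability of the functional in the potential
-/

set_option autoImplicit false

namespace Pool.Agent.W64.WAMzp

open Pool.Agent.W792.LL

theorem main : Pool.Agent.W792.WA.S_MZP := by
  have hO : S_OPR := Pool.Agent.W918.LL.main
  have hD : S_DIA := Pool.Agent.W792.LL.DiaP.main
  have hCay : S_CAY := Pool.Agent.W335.LLCay.main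
  have hZ : S_ZF := Pool.Agent.W762.LL.main hO hD
  have hM : S_MZ := Pool.Agent.W978.LL.main hO hD hZ hCay
  intro d m q hq hm
  exact hM d m q ((norm_nonneg _).trans hm) hq hm

end Pool.Agent.W64.WAMzp
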