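import Pool.Agent.W217.BE.Stm2

/-! Part MINP of project BE, second wave. -/

set_option autoImplicit false

namespace Pool.Agent.W64.BEMINP

open Pool.Agent.W217.BE
open MvPolynomial

section

variable {A : Type} [CommRing A] {k : ℕ}

theorem chiJ_off {κ : Type} [Field κ] (χ : A →+* κ) (J : Fin k → Bool) (α : Fin k →₀ ℕ) (a : A)
    (hα : ∀ j, J j = true → α j = 0) : chiJ χ J (monomial α a) = χ a := by
  unfold chiJ
  rw [eval₂Hom_monomial]
  have : (α.prod fun i k => (if J i = true then (0 : κ) else 1) ^ k) = 1 := by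
    refine Finset.prod_eq_one fun i _ => ?_
    by_cases h : J i = true
    · simp [hα i h]
    · simp [h]
  rw [this, mul_one]

theorem chiJ_on {κ : Type} [Field κ] (χ : A →+* κ) (J : Fin k → Bool) (α : Fin k →₀ ℕ) (a : A)
    (hα : ∃ j, J j = true ∧ α j ≠ 0) : chiJ χ J (monomial α a) = 0 := by
  unfold chiJ
  rw [eval₂Hom_monomial]
  obtain ⟨j, hj, hne⟩ := hα
  have : (α.prod fun i k => (if J i = true then (0 : κ) else 1) ^ k) = 0 := by
    refine Finset.prod_eq_zero (i := j) (Finsupp.mem_support_iff.mpr hne) ?_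
    simp only [hj, if_true]
    exact zero_pow hne
  rw [this, mul_zero]

/-- reduction modulo `q` and the variables of `J` -/
noncomputable def phi (q : Ideal A) (J : Fin k → Bool) :
    MvPolynomial (Fin k) A →+* MvPolynomial (Fin k) (A ⧸ q) :=
  eval₂Hom (C.comp (Ideal.Quotient.mk q)) (fun j => if J j = true then 0 else X j)

theorem phi_off (q : Ideal A) (J : Fin k → Bool) (α : Fin k →₀ ℕ) (a : A)
    (hα : ∀ j, J j = true → α j = 0) :
    phi q J (monomial α a) = monomial α (Ideal.Quotient.mk q a) := by
  unfold phi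
  rw [eval₂Hom_monomial, monomial_eq, RingHom.comp_apply]
  congr 1
  refine Finset.prod_congr rfl fun i hi => ?_
  have h1 : ¬ J i = true := fun h => (Finsupp.mem_support_iff.mp hi) (hα i h)
  simp [h1]

theorem phi_on (q : Ideal A) (J : Fin k → Bool) (α : Fin k →₀ ℕ) (a : A)
    (hα : ∃ j, J j = true ∧ α j ≠ 0) : phi q J (monomial α a) = 0 := by
  unfold phi
  rw [eval₂Hom_monomial]
  obtain ⟨j, hj, hne⟩ := hα
  have : (α.prod fun i e => (if J i = true then (0 : MvPolynomial (Fin k) (A ⧸ q)) else X i) ^ e)
      = 0 := by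
    refine Finset.prod_eq_zero (i := j) (Finsupp.mem_support_iff.mpr hne) ?_
    simp only [hj, if_true]
    exact zero_pow hne
  rw [this, mul_zero]

theorem off_or_on (J : Fin k → Bool) (α : Fin k →₀ ℕ) :
    (∀ j, J j = true → α j = 0) ∨ (∃ j, J j = true ∧ α j ≠ 0) := by
  by_cases h : ∀ j, J j = true → α j = 0
  · exact Or.inl h
  · right
    push Not at h
    exact h

theorem phi_coeff_off (q : Ideal A) (J : Fin k → Bool) (β : Fin k →₀ ℕ)
    (hβ : ∀ j, J j = true → β j = 0) (f : MvPolynomial (Fin k) A) :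
    coeff β (phi q J f) = Ideal.Quotient.mk q (coeff β f) := by
  classical
  induction f using MvPolynomial.induction_on' with
  | monomial u a =>
    rcases off_or_on J u with h | h
    · rw [phi_off q J u a h, coeff_monomial, coeff_monomial]
      by_cases hu : u = β
      · simp [hu]
      · simp [hu]
    · rw [phi_on q J u a h, coeff_monomial]
      have hu : u ≠ β := by
        rintro rfl
        obtain ⟨j, hj, hne⟩ := h
        exact hne (hβ j hj)
      simp [hu]
  | add f g hf hg => rw [map_add, coeff_add, coeff_add, map_add, hf, hg]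

theorem phi_coeff_on (q : Ideal A) (J : Fin k → Bool) (β : Fin k →₀ ℕ)
    (hβ : ∃ j, J j = true ∧ β j ≠ 0) (f : MvPolynomial (Fin k) A) :
    coeff β (phi q J f) = 0 := by
  classical
  induction f using MvPolynomial.induction_on' with
  | monomial u a =>
    rcases off_or_on J u with h | h
    · rw [phi_off q J u a h, coeff_monomial]
      have hu : u ≠ β := by
        rintro rfl
        obtain ⟨j, hj, hne⟩ := hβ
        exact hne (h j hj)
      simp [hu]
    · rw [phi_on q J u a h, coeff_zero]
  | add f g hf hg => rw [map_add, coeff_add, hf, hg, add_zero]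

theorem mono_mem (Q : Ideal (MvPolynomial (Fin k) A)) [Q.IsPrime] (q : Ideal A)
    (J : Fin k → Bool) (hq : q = Q.comap (algebraMap A (MvPolynomial (Fin k) A)))
    (hJ : ∀ j, J j = true ↔ (X j : MvPolynomial (Fin k) A) ∈ Q) (α : Fin k →₀ ℕ) (a : A)
    (hα : ∀ j, J j = true → α j = 0) (h : (monomial α a : MvPolynomial (Fin k) A) ∈ Q) :
    a ∈ q := by
  rw [monomial_eq] at h
  rcases Ideal.IsPrime.mem_or_mem inferInstance h with h1 | h1
  · rw [hq, Ideal.mem_comap]
    exact h1
  · exfalso
    rw [Finsupp.prod, Ideal.IsPrime.prod_mem_iff] at h1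
    obtain ⟨i, hi, h2⟩ := h1
    exact (Finsupp.mem_support_iff.mp hi)
      (hα i ((hJ i).mpr (Ideal.IsPrime.mem_of_pow_mem inferInstance _ h2)))

theorem dvd_mono (α : Fin k →₀ ℕ) (a : A) (j : Fin k) (hj : α j ≠ 0) :
    (X j : MvPolynomial (Fin k) A) ∣ monomial α a :=
  X_dvd_monomial.mpr (Or.inr hj)

theorem mono_of (Q : Ideal (MvPolynomial (Fin k) A)) (α : Fin k →₀ ℕ) (a : A)
    (h : (C a : MvPolynomial (Fin k) A) ∈ Q) : (monomial α a : MvPolynomial (Fin k) A) ∈ Q := by
  rw [monomial_eq]
  exact Ideal.mul_mem_right _ _ h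

end

theorem main : HOMANN → MINP := by
  intro hH A _ _ k M _ _ _ _ _ ℳ hint hgr Q hQ q _ J hq hJ
  set I := Module.annihilator (MvPolynomial (Fin k) A) M with hI
  have hQp : Q.IsPrime := hQ.1.1
  have hIQ : I ≤ Q := hQ.1.2
  have hann := hH A k M ℳ hint hgr
  -- the kernel of the reduction
  have hker_le : RingHom.ker (phi q J) ≤ Q := by
    intro f hf
    rw [RingHom.mem_ker] at hf
    rw [← support_sum_monomial_coeff f]
    refine Ideal.sum_mem _ fun α _ => ?_
    rcases off_or_on J α with h | h
    · have h1 := phi_coeff_off q J α h f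
      rw [hf, coeff_zero] at h1
      have h2 : coeff α f ∈ q := Ideal.Quotient.eq_zero_iff_mem.mp h1.symm
      rw [hq, Ideal.mem_comap] at h2
      exact mono_of Q α _ h2
    · obtain ⟨j, hj, hne⟩ := h
      exact Ideal.mem_of_dvd Q (dvd_mono α _ j hne) ((hJ j).mp hj)
  have hI_le : I ≤ RingHom.ker (phi q J) := by
    intro f hf
    rw [RingHom.mem_ker]
    ext β
    rw [coeff_zero]
    rcases off_or_on J β with h | h
    · rw [phi_coeff_off q J β h f, Ideal.Quotient.eq_zero_iff_mem]
      exact mono_mem Q q J hq hJ β _ h (hIQ (hann f hf β))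
    · exact phi_coeff_on q J β h f
  have hprime : (RingHom.ker (phi q J)).IsPrime := RingHom.ker_isPrime _
  have hQle : Q ≤ RingHom.ker (phi q J) := hQ.2 ⟨hprime, hI_le⟩ hker_le
  -- characterisation
  have hchar : ∀ f ∈ Q, ∀ β : Fin k →₀ ℕ, (∀ j, J j = true → β j = 0) → coeff β f ∈ q := by
    intro f hf β hβ
    have h0 : phi q J f = 0 := hQle hf
    have h1 := phi_coeff_off q J β hβ f
    rw [h0, coeff_zero] at h1
    exact Ideal.Quotient.eq_zero_iff_mem.mp h1.symm
  have hchiq : ∀ a : A, chi q a = 0 ↔ a ∈ q := by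
    intro a
    unfold chi
    rw [RingHom.comp_apply, IsLocalRing.residue_eq_zero_iff]
    exact IsLocalization.AtPrime.to_map_mem_maximal_iff (Localization.AtPrime q) q a
  have hchi : ∀ f ∈ Q, chiJ (chi q) J f = 0 := by
    intro f hf
    rw [← support_sum_monomial_coeff f, map_sum]
    refine Finset.sum_eq_zero fun α _ => ?_
    rcases off_or_on J α with h | h
    · rw [chiJ_off (chi q) J α _ h, hchiq]
      exact hchar f hf α h
    · exact chiJ_on (chi q) J α _ h
  refine ⟨?_, ?_, ?_⟩
  · -- NZ
    by_contra hcon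
    have h1 : ∀ x : M, ∃ s : MvPolynomial (Fin k) A, s ∉ Q ∧ s • x = 0 := by
      intro x
      by_contra h2
      apply hcon
      refine ⟨x, fun s hs h3 => ?_⟩
      exact hs (hchi s (by_contra fun h4 => h2 ⟨s, h4, h3⟩))
    choose sf hsf1 hsf2 using h1
    obtain ⟨T, hT⟩ := (Module.Finite.fg_top : (⊤ : Submodule (MvPolynomial (Fin k) A) M).FG)
    have hp1 : (∏ x ∈ T, sf x) ∈ I := by
      rw [hI, Module.mem_annihilator]
      intro y
      have hy : y ∈ Submodule.span (MvPolynomial (Fin k) A) (T : Set M) := by rw [hT]; trivial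
      induction hy using Submodule.span_induction with
      | mem x hx =>
        obtain ⟨c, hc⟩ := Finset.dvd_prod_of_mem sf (Finset.mem_coe.mp hx)
        rw [hc, mul_comm, mul_smul, hsf2 x, smul_zero]
      | zero => exact smul_zero _
      | add x y _ _ hx hy => rw [smul_add, hx, hy, add_zero]
      | smul a x _ hx => rw [smul_comm, hx, smul_zero]
    have hp2 := hIQ hp1
    rw [Ideal.IsPrime.prod_mem_iff] at hp2
    obtain ⟨x, _, hx⟩ := hp2
    exact hsf1 x hx
  · -- NIL
    intro j hj
    have hXQ : (X j : MvPolynomial (Fin k) A) ∈ Q := (hJ j).mp hj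
    have h1 : ∃ (n : ℕ) (s : MvPolynomial (Fin k) A), s ∉ Q ∧ s * X j ^ n ∈ I := by
      by_contra hcon
      have hdis : Disjoint (I : Set (MvPolynomial (Fin k) A))
          ((Q.primeCompl ⊔ Submonoid.powers (X j : MvPolynomial (Fin k) A) :
            Submonoid (MvPolynomial (Fin k) A)) : Set (MvPolynomial (Fin k) A)) := by
        rw [Set.disjoint_left]
        intro f hf hf2
        rw [SetLike.mem_coe, Submonoid.mem_sup] at hf2
        obtain ⟨s, hs, z, ⟨n, hz⟩, he⟩ := hf2
        apply hcon
        refine ⟨n, s, hs, ?_⟩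
        have hz' : X j ^ n = z := hz
        rw [hz', he]
        exact hf
      obtain ⟨P, hP, hIP, hPd⟩ := Ideal.exists_le_prime_disjoint I _ hdis
      rw [Set.disjoint_left] at hPd
      have hPQ : P ≤ Q := by
        intro f hf
        by_contra hfQ
        exact hPd hf ((le_sup_left : Q.primeCompl ≤
          Q.primeCompl ⊔ Submonoid.powers (X j : MvPolynomial (Fin k) A)) hfQ)
      have hQP : Q ≤ P := hQ.2 ⟨hP, hIP⟩ hPQ
      exact hPd (hQP hXQ) ((le_sup_right : Submonoid.powers (X j : MvPolynomial (Fin k) A) ≤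
          Q.primeCompl ⊔ Submonoid.powers (X j : MvPolynomial (Fin k) A))
            (Submonoid.mem_powers _))
    obtain ⟨n, s, hs, hsI⟩ := h1
    have h2 : ∃ β : Fin k →₀ ℕ, (∀ j, J j = true → β j = 0) ∧ coeff β s ∉ q := by
      by_contra hcon
      apply hs
      apply hker_le
      rw [RingHom.mem_ker]
      ext β
      rw [coeff_zero]
      rcases off_or_on J β with h | h
      · rw [phi_coeff_off q J β h s, Ideal.Quotient.eq_zero_iff_mem]
        by_contra h3
        exact hcon ⟨β, h, h3⟩
      · exact phi_coeff_on q J β h s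
    obtain ⟨β, hβ, hβq⟩ := h2
    refine ⟨n, monomial β (coeff β s), ?_, ?_⟩
    · rw [chiJ_off (chi q) J β _ hβ]
      intro h3
      exact hβq ((hchiq _).mp h3)
    · have h3 := hann _ hsI (β + Finsupp.single j n)
      have e1 : (X j : MvPolynomial (Fin k) A) ^ n = monomial (Finsupp.single j n) 1 :=
        X_pow_eq_monomial
      rw [e1, coeff_mul_monomial, mul_one] at h3
      rw [e1, monomial_mul, mul_one]
      exact Module.mem_annihilator.mp h3
  · -- height
    have hlo : Q.LiesOver q := ⟨hq⟩
    refine (Ideal.height_le_height_add_of_liesOver q Q).trans ?_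
    refine add_le_add le_rfl ?_
    set m := Ideal.Quotient.mk (q.map (algebraMap A (MvPolynomial (Fin k) A))) with hm
    set T : Finset (Fin k) := Finset.univ.filter (fun j => J j = true) with hT
    have hspan : Q.map m = Ideal.span ((fun j => m (X j)) '' (T : Set (Fin k))) := by
      apply le_antisymm
      · rw [Ideal.map_le_iff_le_comap]
        intro f hf
        rw [Ideal.mem_comap, ← support_sum_monomial_coeff f, map_sum]
        refine Ideal.sum_mem _ fun α _ => ?_
        rcases off_or_on J α with h | h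
        · have h1 : (monomial α (coeff α f) : MvPolynomial (Fin k) A) ∈
              q.map (algebraMap A (MvPolynomial (Fin k) A)) :=
            mono_of _ α _ (Ideal.mem_map_of_mem _ (hchar f hf α h))
          rw [hm, Ideal.Quotient.eq_zero_iff_mem.mpr h1]
          exact Ideal.zero_mem _
        · obtain ⟨j, hj, hne⟩ := h
          refine Ideal.mem_of_dvd _ (map_dvd m (dvd_mono α _ j hne)) ?_
          refine Ideal.subset_span ⟨j, ?_, rfl⟩
          rw [hT]
          simpa using hj
      · rw [Ideal.span_le]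
        rintro _ ⟨j, hj, rfl⟩
        have hj' : J j = true := by
          rw [hT] at hj
          simpa using hj
        exact Ideal.mem_map_of_mem _ ((hJ j).mp hj')
    have hne : Q.map m ≠ ⊤ := by
      intro h
      have h1 : (1 : MvPolynomial (Fin k) A ⧸
          q.map (algebraMap A (MvPolynomial (Fin k) A))) ∈ Q.map m := by rw [h]; trivial
      have hle : q.map (algebraMap A (MvPolynomial (Fin k) A)) ≤ Q := by
        rw [Ideal.map_le_iff_le_comap, hq]
      have h2 := (Ideal.mem_quotient_iff_mem (x := (1 : MvPolynomial (Fin k) A)) hle).mp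
        (by rw [map_one]; exact h1)
      exact hQp.ne_top ((Ideal.eq_top_iff_one _).mpr h2)
    refine (Ideal.height_le_spanFinrank _ hne).trans ?_
    rw [hspan]
    refine (Submodule.spanFinrank_span_le_encard _).trans ?_
    refine (Set.encard_image_le _ _).trans ?_
    rw [Set.encard_coe_eq_coe_finsetCard, hT, Finset.card_filter]

end Pool.Agent.W64.BEMINP
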