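import Pool.Agent.W894.HT.Ex

/-!
# Project HT: XBD
-/

set_option autoImplicit false

namespace Pool.Agent.W64.HTXbd

open Pool.Agent.W894.HT

/-- number of low elements -/
def la (n : ℕ) (l : List ℕ) : ℕ := l.countP (fun u => decide (u ≤ n))

/-- number of high elements -/
def lh (n M : ℕ) (l : List ℕ) : ℕ := l.countP (fun u => decide (n + M < u))

theorem phi_abs (F : ℕ → ℕ → Bool) (x v : ℕ) : |(phi F x v : ℤ)| ≤ 1 := by
  unfold phi
  split_ifs <;> simp

theorem comb {A B w : ℤ} {K : ℤ} (hA : |A| ≤ K) (hB : |B| ≤ K) (hw : |w| ≤ 1) :
    |A + w * B| ≤ K + K := by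
  refine (abs_add_le _ _).trans (add_le_add hA ?_)
  rw [abs_mul]
  calc |w| * |B| ≤ 1 * |B| := mul_le_mul_of_nonneg_right hw (abs_nonneg _)
    _ ≤ K := by rw [one_mul]; exact hB

theorem bound (n M : ℕ) (hM : 1 ≤ M) (G : ℕ → ℕ → Bool) : ∀ (l : List ℕ) (x : ℕ)
    (κ : ℕ → ℕ), (∀ u ∈ x :: l, u ≤ n ∨ n + M < u) →
    (((κ (n + 1) + low x (n + 1) + la n l ≤ n ∧ κ (n + 1) + lh n M l ≤ n) ∨
      (κ (n + 1) + low x (n + 1) + la n l ≤ n + 1 ∧ κ (n + 1) + lh n M l + 1 ≤ n)) →
        |Rr (phi (Fb n M G)) (finX n M) x l κ| ≤ 2 ^ l.length * (n : ℤ) ^ M) ∧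
    ((κ (n + 1) + low x (n + 1) + la n l = n + 1 ∧ κ (n + 1) + lh n M l = n) →
        |Rr (phi (Fb n M G)) (finX n M) x l κ -
          (if alt n M G x l = true then ((n : ℤ) + 1) ^ M else 0)| ≤
            2 ^ l.length * (n : ℤ) ^ M) := by
  intro l
  induction l with
  | nil =>
    intro x κ hx
    have h0 : (0 : ℤ) ≤ (n : ℤ) ^ M := by positivity
    constructor
    · intro h
      simp only [Rr, finX, List.length_nil, pow_zero, one_mul, la, lh, List.countP_nil,
        add_zero] at h ⊢
      have hle : κ (n + 1) + low x (n + 1) ≤ n := by
        have : low x (n + 1) ≤ 1 := by unfold low; split_ifs <;> omega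
        omega
      rw [abs_of_nonneg (by positivity)]
      exact pow_le_pow_left₀ (by positivity) (by exact_mod_cast hle) M
    · rintro ⟨h1, h2⟩
      simp only [la, lh, List.countP_nil, add_zero] at h1 h2
      have hx1 : x ≤ n := by
        by_contra hcon
        have : low x (n + 1) = 0 := by unfold low; rw [if_neg (by omega)]
        omega
      simp only [Rr, finX, List.length_nil, pow_zero, one_mul, alt, hx1, decide_true, if_true, h1]
      push_cast
      rw [sub_self, abs_zero]
      exact h0
  | cons v l ih =>
    intro x κ hx
    have hxx := hx x (by simp)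
    have hvv := hx v (by simp)
    have hl : ∀ u ∈ v :: l, u ≤ n ∨ n + M < u := fun u hu => hx u (List.mem_cons_of_mem _ hu)
    have ih1 := ih v κ hl
    have ih2 := ih v (fun z => κ z + itv x v z) hl
    have hla : la n (v :: l) = la n l + (if v ≤ n then 1 else 0) := by
      unfold la
      rw [List.countP_cons]
      simp
    have hlh : lh n M (v :: l) = lh n M l + (if n + M < v then 1 else 0) := by
      unfold lh
      rw [List.countP_cons]
      simp
    have hlen : (2 : ℤ) ^ (v :: l).length * (n : ℤ) ^ M =
        2 ^ l.length * (n : ℤ) ^ M + 2 ^ l.length * (n : ℤ) ^ M := by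
      rw [List.length_cons, pow_succ]
      ring
    have hK0 : (0 : ℤ) ≤ 2 ^ l.length * (n : ℤ) ^ M := by positivity
    rw [hla, hlh, hlen]
    -- small ascending term
    have hS2 : ((κ (n + 1) + itv x v (n + 1) + low v (n + 1) + la n l ≤ n ∧
        κ (n + 1) + itv x v (n + 1) + lh n M l ≤ n) ∨
      (κ (n + 1) + itv x v (n + 1) + low v (n + 1) + la n l ≤ n + 1 ∧
        κ (n + 1) + itv x v (n + 1) + lh n M l + 1 ≤ n)) →
        |(if x < v then Rr (phi (Fb n M G)) (finX n M) v l (fun z => κ z + itv x v z) else 0)| ≤
          2 ^ l.length * (n : ℤ) ^ M := by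
      intro h
      by_cases hxv : x < v
      · rw [if_pos hxv]
        exact ih2.1 h
      · rw [if_neg hxv, abs_zero]
        exact hK0
    rcases hxx with hx1 | hx1 <;> rcases hvv with hv1 | hv1
    · -- low, low
      have e1 : itv x v (n + 1) = 0 := by unfold itv; rw [if_neg (by omega)]
      have e2 : low x (n + 1) = 1 := by unfold low; rw [if_pos (by omega)]
      have e3 : low v (n + 1) = 1 := by unfold low; rw [if_pos (by omega)]
      rw [e1, e3] at hS2
      rw [e3] at ih1
      rw [e2, if_pos hv1, if_neg (show ¬ n + M < v by omega)]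
      constructor
      · intro h
        rw [Rr]
        exact comb (hS2 (by omega)) (ih1.1 (by omega)) (phi_abs _ _ _)
      · intro h
        have halt : alt n M G x (v :: l) = false := by
          rw [alt, if_pos hx1]
          have : ¬ n + M < v := by omega
          simp [this]
        rw [halt, if_neg (by simp), sub_zero, Rr]
        exact comb (hS2 (by omega)) (ih1.1 (by omega)) (phi_abs _ _ _)
    · -- low, high
      have e1 : itv x v (n + 1) = 1 := by unfold itv; rw [if_pos (by omega)]
      have e2 : low x (n + 1) = 1 := by unfold low; rw [if_pos (by omega)]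
      have e3 : low v (n + 1) = 0 := by unfold low; rw [if_neg (by omega)]
      rw [e1, e3] at hS2
      simp only [e1, e3] at ih2
      rw [e3] at ih1
      rw [e2, if_neg (show ¬ v ≤ n by omega), if_pos hv1]
      constructor
      · intro h
        rw [Rr]
        exact comb (hS2 (by omega)) (ih1.1 (by omega)) (phi_abs _ _ _)
      · intro h
        have halt : alt n M G x (v :: l) = alt n M G v l := by
          rw [alt, if_pos hx1]
          simp [hv1]
        rw [halt, Rr, if_pos (show x < v by omega), add_sub_right_comm]
        exact comb (ih2.2 (by omega)) (ih1.1 (by omega)) (phi_abs _ _ _)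
    · -- high, low
      have e1 : itv x v (n + 1) = 0 := by unfold itv; rw [if_neg (by omega)]
      have e2 : low x (n + 1) = 0 := by unfold low; rw [if_neg (by omega)]
      have e3 : low v (n + 1) = 1 := by unfold low; rw [if_pos (by omega)]
      rw [e1, e3] at hS2
      rw [e3] at ih1
      rw [e2, if_pos hv1, if_neg (show ¬ n + M < v by omega)]
      constructor
      · intro h
        rw [Rr]
        exact comb (hS2 (by omega)) (ih1.1 (by omega)) (phi_abs _ _ _)
      · intro h
        rw [Rr, if_neg (show ¬ x < v by omega), zero_add]
        have halt : alt n M G x (v :: l) = (Fb n M G x v && alt n M G v l) := by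
          rw [alt, if_neg (by omega)]
        rw [halt]
        by_cases hF : Fb n M G x v = true
        · have hphi : (phi (Fb n M G) x v : ℤ) = 1 := by
            unfold phi
            rw [if_pos hF, if_neg (by omega)]
          rw [hphi, one_mul, hF, Bool.true_and]
          exact (ih1.2 (by omega)).trans (by linarith)
        · have hphi : (phi (Fb n M G) x v : ℤ) = 0 := by
            unfold phi
            rw [if_neg hF]
          rw [hphi, zero_mul, Bool.eq_false_iff.mpr hF, Bool.false_and, if_neg (by simp),
            sub_zero, abs_zero]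
          linarith
    · -- high, high
      have e1 : itv x v (n + 1) = 0 := by unfold itv; rw [if_neg (by omega)]
      have e2 : low x (n + 1) = 0 := by unfold low; rw [if_neg (by omega)]
      have e3 : low v (n + 1) = 0 := by unfold low; rw [if_neg (by omega)]
      rw [e1, e3] at hS2
      rw [e3] at ih1
      rw [e2, if_neg (show ¬ v ≤ n by omega), if_pos hv1]
      constructor
      · intro h
        rw [Rr]
        exact comb (hS2 (by omega)) (ih1.1 (by omega)) (phi_abs _ _ _)
      · intro h
        have hF : Fb n M G x v = false := by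
          unfold Fb
          have h1 : ¬ x ≤ n := by omega
          have h2 : ¬ v ≤ n := by omega
          simp [h1, h2]
        have halt : alt n M G x (v :: l) = false := by
          rw [alt, if_neg (by omega), hF, Bool.false_and]
        rw [halt, if_neg (by simp), sub_zero, Rr]
        exact comb (hS2 (by omega)) (ih1.1 (by omega)) (phi_abs _ _ _)

theorem main : S_XBD := by
  intro n M G l hn hM hperm
  have hmem : ∀ u ∈ 0 :: l, u ≤ n ∨ n + M < u := by
    intro u hu
    rcases List.mem_cons.mp hu with rfl | hu
    · exact Or.inl (Nat.zero_le _)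
    · have := (hperm.mem_iff).mp hu
      rw [List.mem_append, List.mem_range'_1, List.mem_range'_1] at this
      omega
  have hla : la n l = n := by
    unfold la
    rw [hperm.countP_eq, List.countP_append]
    have h1 : (List.range' 1 n).countP (fun u => decide (u ≤ n)) = n := by
      rw [List.countP_eq_length.mpr, List.length_range']
      intro a ha
      rw [List.mem_range'_1] at ha
      simp
      omega
    have h2 : (List.range' (n + M + 1) n).countP (fun u => decide (u ≤ n)) = 0 := by
      rw [List.countP_eq_zero]
      intro a ha
      rw [List.mem_range'_1] at ha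
      simp
      omega
    rw [h1, h2, add_zero]
  have hlh : lh n M l = n := by
    unfold lh
    rw [hperm.countP_eq, List.countP_append]
    have h1 : (List.range' 1 n).countP (fun u => decide (n + M < u)) = 0 := by
      rw [List.countP_eq_zero]
      intro a ha
      rw [List.mem_range'_1] at ha
      simp
      omega
    have h2 : (List.range' (n + M + 1) n).countP (fun u => decide (n + M < u)) = n := by
      rw [List.countP_eq_length.mpr, List.length_range']
      intro a ha
      rw [List.mem_range'_1] at ha
      simp
      omega
    rw [h1, h2, zero_add]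
  have hlen : l.length = 2 * n := by
    rw [hperm.length_eq, List.length_append, List.length_range', List.length_range']
    ring
  have h := (bound n M hM G l 0 (fun _ => 0) hmem).2 (by
    have : low 0 (n + 1) = 1 := by unfold low; rw [if_pos (by omega)]
    rw [this, hla, hlh]
    omega)
  refine h.trans (le_of_eq ?_)
  rw [hlen]
  push_cast
  rw [pow_mul]
  norm_num

end Pool.Agent.W64.HTXbd
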